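import Mathlib
import Pool.Agent.Q158.BandB
import Pool.Agent.Q158.LinC

set_option autoImplicit false

/-! # Band limited sequences with spectrum in a closed set of given measure -/

namespace Pool.Agent.Q40.PM

open Finset MeasureTheory Pool.Agent.TH327.Thin Pool.Agent.Q158.Band

open AddCircle in
theorem haar_eq (K : Set UnitAddCircle) :
    (haarAddCircle : Measure UnitAddCircle) K = volume K := by
  rw [volume_eq_smul_haarAddCircle]
  simp

open AddCircle in
/-- an absolutely convergent Fourier series which is one near `K`, of small `ℓ²` norm -/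
theorem band (K : Set UnitAddCircle) (hK : IsClosed K) (δ : ℝ) (hδ : 0 < δ) :
    ∃ φ : ℤ → ℂ, Summable (fun l => ‖φ l‖) ∧ Summable (fun l => ‖φ l‖ ^ 2) ∧
      ∑' l, ‖φ l‖ ^ 2 ≤ (volume K).toReal + δ ∧ ∃ U : Set UnitAddCircle, IsOpen U ∧ K ⊆ U ∧
      ∀ η ∈ U, ∑' l, φ l * fourier (-l) η = 1 := by
  classical
  have hfin : (haarAddCircle : Measure UnitAddCircle) K ≠ ⊤ := measure_ne_top _ _
  have h1 : Filter.Tendsto (fun q : ℕ => (haarAddCircle : Measure UnitAddCircle)
      (Metric.cthickening (3 / (q : ℝ)) K)) Filter.atTop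
      (nhds ((haarAddCircle : Measure UnitAddCircle) K)) := by
    have h2 := tendsto_measure_cthickening_of_isClosed (μ := (haarAddCircle : Measure UnitAddCircle))
      (s := K) ⟨1, one_pos, measure_ne_top _ _⟩ hK
    exact h2.comp (tendsto_const_div_atTop_nhds_zero_nat 3)
  have h2 := (h1.eventually (gt_mem_nhds (ENNReal.lt_add_right hfin
    (ENNReal.ofReal_pos.2 hδ).ne'))).and (Filter.eventually_ge_atTop 2)
  obtain ⟨q, hq1, hq⟩ := h2.exists
  have hq0 : (0 : ℝ) < q := by exact_mod_cast (by omega : 0 < q)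
  set S : Finset ℕ := (range q).filter (fun s => ∃ κ ∈ K, ‖κ - pt q s‖ < 2 / q) with hS
  have hSr : S ⊆ range q := Finset.filter_subset _ _
  have hcard : (S.card : ℝ) / q ≤ (volume K).toReal + δ := by
    refine (card_le q hq S hSr (Metric.cthickening (3 / (q : ℝ)) K)
      Metric.isClosed_cthickening.measurableSet (fun s hs η hη => ?_)).trans ?_
    · obtain ⟨κ, hκ, h3⟩ := (Finset.mem_filter.1 hs).2
      by_contra h4
      push Not at h4
      apply hη
      apply Metric.mem_cthickening_of_dist_le η κ _ K hκ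
      rw [dist_eq_norm]
      have h5 : η - κ = (η - pt q s) - (κ - pt q s) := by abel
      rw [h5]
      refine (norm_sub_le _ _).trans ?_
      have h6 : (3 : ℝ) / q = 1 / q + 2 / q := by ring
      linarith
    · have h7 := ENNReal.toReal_mono (ENNReal.add_ne_top.2 ⟨hfin, ENNReal.ofReal_ne_top⟩) hq1.le
      rwa [ENNReal.toReal_add hfin ENNReal.ofReal_ne_top, ENNReal.toReal_ofReal hδ.le,
        haar_eq K] at h7
  refine ⟨φ q S, summable_φ q hq S, (sq_sum q hq S).summable, (sq_le q hq S hSr).trans hcard,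
    Metric.thickening (1 / q) K, Metric.isOpen_thickening,
    Metric.self_subset_thickening (by positivity) K, ?_⟩
  intro η hη
  rw [(hasSum_φ q hq S η).tsum_eq]
  apply F_one q hq S hSr
  intro s hs hsS
  obtain ⟨κ, hκ, h3⟩ := Metric.mem_thickening_iff.1 hη
  have h4 : ¬ ‖κ - pt q s‖ < 2 / q := fun h5 => hsS (Finset.mem_filter.2 ⟨hs, κ, hκ, h5⟩)
  rw [dist_eq_norm] at h3
  have h5 : κ - pt q s = (η - pt q s) - (η - κ) := by abel
  rw [h5] at h4
  push Not at h4
  have h6 := h4.trans (norm_sub_le _ _)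
  have h7 : (2 : ℝ) / q = 1 / q + 1 / q := by ring
  linarith

theorem vol_le_one (K : Set UnitAddCircle) : (volume K).toReal ≤ 1 := by
  rw [← haar_eq K]
  exact ENNReal.toReal_le_of_le_ofReal zero_le_one (by
    rw [ENNReal.ofReal_one]
    exact prob_le_one)

/-- **bounded sequences with spectrum in a closed set** are dominated by vectors of a Hilbert space
with mean square about the measure of the set -/
theorem slow (K : Set UnitAddCircle) (hK : IsClosed K) (η : ℝ) (hη : 0 < η) : ∃ L₁ : ℕ, ∀ L : ℕ,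
    L₁ ≤ L → ∃ (ι : Type) (_ : Fintype ι) (c : ℕ → EuclideanSpace ℂ ι),
        ∑ h ∈ range L, ‖c h‖ ^ 2 ≤ ((volume K).toReal + η) * L ^ 2 ∧
        ∀ a : ℤ → ℂ, (∀ n, ‖a n‖ ≤ 1) → SpecIn K a → ∀ v : ℕ → ℂ, (∀ h, ‖v h‖ ≤ 1) →
          ‖∑ h ∈ range L, v h • a h‖ ≤ ‖∑ h ∈ range L, v h • c h‖ + η * L := by
  classical
  obtain ⟨φ, hφ, hφ2, hsq, hU⟩ := band K hK (η / 2) (by positivity)
  set m : ℝ := (volume K).toReal with hm
  have hm0 : 0 ≤ m := ENNReal.toReal_nonneg
  have hm1 : m ≤ 1 := vol_le_one K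
  -- the tail
  obtain ⟨s0, hs0⟩ : ∃ s0 : Finset ℤ, ∀ s : Finset ℤ, s0 ⊆ s →
      ∑' l, ‖φ l‖ - ∑ l ∈ s, ‖φ l‖ ≤ η := by
    have h1 := hφ.hasSum.eventually (lt_mem_nhds (sub_lt_self (∑' l, ‖φ l‖) hη))
    obtain ⟨s0, hs0⟩ := Filter.eventually_atTop.1 h1
    exact ⟨s0, fun s hs => by
      have := hs0 s hs
      linarith⟩
  obtain ⟨L₀, hL₀⟩ : ∃ L₀ : ℕ, ∀ l ∈ s0, |l| ≤ (L₀ : ℤ) := by
    refine ⟨∑ l ∈ s0, l.natAbs, fun l hl => ?_⟩
    have := Finset.single_le_sum (f := fun l : ℤ => l.natAbs) (fun _ _ => Nat.zero_le _) hl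
    rw [Int.abs_eq_natAbs]
    exact_mod_cast this
  obtain ⟨L₁, hL₁⟩ := exists_nat_ge (4 * (L₀ + 1) * (1 + η) / η)
  refine ⟨L₁, fun L hL => ?_⟩
  have hLL : 4 * (L₀ + 1) * (1 + η) ≤ η * L := by
    have h1 : 4 * (L₀ + 1) * (1 + η) / η ≤ L := hL₁.trans (by exact_mod_cast hL)
    rw [div_le_iff₀ hη] at h1
    linarith
  have hL0 : (0 : ℝ) ≤ L := Nat.cast_nonneg L
  set J : Finset ℤ := Finset.Ico (-((L₀ : ℤ) + 1)) (L + L₀ + 1) with hJ
  have hJc : (J.card : ℝ) = L + 2 * (L₀ + 1) := by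
    rw [hJ, Int.card_Ico]
    have : (((L : ℤ) + L₀ + 1 - -((L₀ : ℤ) + 1)).toNat) = L + 2 * (L₀ + 1) := by omega
    rw [this]
    push_cast
    ring
  set C : ℝ := Real.sqrt (L + 2 * (L₀ + 1)) with hC
  have hCsq : C ^ 2 = L + 2 * (L₀ + 1) := Real.sq_sqrt (by positivity)
  refine ⟨{m // m ∈ J}, inferInstance, cvec C φ J, ?_, ?_⟩
  · have h1 : ∀ h ∈ range L, ‖cvec C φ J h‖ ^ 2 ≤ C ^ 2 * (m + η / 2) := by
      intro h _
      rw [cvec_sq]
      refine mul_le_mul_of_nonneg_left ?_ (sq_nonneg _)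
      have h3 := (summable_shift' hφ2 (h : ℤ)).sum_le_tsum J fun _ _ => sq_nonneg _
      refine h3.trans ?_
      rw [tsum_shift (fun l => ‖φ l‖ ^ 2) (h : ℤ)]
      exact hsq
    refine (Finset.sum_le_sum h1).trans ?_
    rw [Finset.sum_const, Finset.card_range, nsmul_eq_mul, hCsq]
    have h2 : 2 * ((L₀ : ℝ) + 1) * (m + η / 2) ≤ η / 2 * L := by
      have h3 : (0 : ℝ) ≤ 2 * ((L₀ : ℝ) + 1) := by positivity
      have h4 : 2 * ((L₀ : ℝ) + 1) * (m + η / 2) ≤ 2 * ((L₀ : ℝ) + 1) * (1 + η) :=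
        mul_le_mul_of_nonneg_left (by linarith) h3
      linarith
    calc (L : ℝ) * ((L + 2 * (L₀ + 1)) * (m + η / 2)) =
          L * (L * (m + η / 2) + 2 * ((L₀ : ℝ) + 1) * (m + η / 2)) := by ring
      _ ≤ L * (L * (m + η / 2) + η / 2 * L) :=
          mul_le_mul_of_nonneg_left (by linarith) hL0
      _ = _ := by ring
  · intro a ha hsp v hv
    have h1 : ∀ h ∈ range L, ‖a h - ∑ m ∈ J, φ ((h : ℤ) - m) • a m‖ ≤ η := by
      intro h hh
      have hh' : (h : ℤ) < L := by exact_mod_cast mem_range.1 hh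
      rw [← repr hφ hU ha hsp h]
      refine (tail_le (g := fun m => ‖φ ((h : ℤ) - m)‖) (summable_shift hφ h)
        (fun m => ?_) J).trans ?_
      · rw [norm_smul]
        calc _ ≤ ‖φ ((h : ℤ) - m)‖ * 1 := mul_le_mul_of_nonneg_left (ha m) (norm_nonneg _)
          _ = _ := mul_one _
      · rw [tsum_shift (fun l => ‖φ l‖) (h : ℤ)]
        have h5 : ∑ m ∈ J, ‖φ ((h : ℤ) - m)‖ = ∑ l ∈ J.image (fun m => (h : ℤ) - m), ‖φ l‖ := by
          rw [Finset.sum_image fun x _ y _ hxy => by simpa using hxy]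
        rw [h5]
        refine hs0 (J.image (fun m => (h : ℤ) - m)) ?_
        intro l hl
        rw [Finset.mem_image]
        refine ⟨h - l, ?_, by ring⟩
        have h7 := abs_le.1 (hL₀ l hl)
        rw [hJ, Finset.mem_Ico]
        constructor
        · have : (0 : ℤ) ≤ h := Int.natCast_nonneg h
          omega
        · omega
    have h2 : ‖∑ h ∈ range L, v h • a h‖ ≤
        ‖∑ m ∈ J, (∑ h ∈ range L, v h * φ ((h : ℤ) - m)) • a m‖ + η * L := by
      have h3 : ∑ h ∈ range L, v h • a h =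
          ∑ m ∈ J, (∑ h ∈ range L, v h * φ ((h : ℤ) - m)) • a m +
          ∑ h ∈ range L, v h • (a h - ∑ m ∈ J, φ ((h : ℤ) - m) • a m) := by
        have h4 : ∑ m ∈ J, (∑ h ∈ range L, v h * φ ((h : ℤ) - m)) • a m =
            ∑ h ∈ range L, v h • ∑ m ∈ J, φ ((h : ℤ) - m) • a m := by
          simp only [Finset.sum_smul, Finset.smul_sum, mul_smul]
          rw [Finset.sum_comm]
        rw [h4, ← Finset.sum_add_distrib]
        refine Finset.sum_congr rfl fun h _ => ?_
        rw [smul_sub]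
        abel
      rw [h3]
      refine (norm_add_le _ _).trans (add_le_add le_rfl ((norm_sum_le _ _).trans ?_))
      calc _ ≤ ∑ _h ∈ range L, η := by
            refine Finset.sum_le_sum fun h hh => ?_
            rw [norm_smul]
            calc _ ≤ 1 * η := mul_le_mul (hv h) (h1 h hh) (norm_nonneg _) zero_le_one
              _ = η := one_mul _
        _ = _ := by rw [Finset.sum_const, Finset.card_range, nsmul_eq_mul, mul_comm]
    refine h2.trans (add_le_add ?_ le_rfl)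
    refine (norm_sum_le _ _).trans ?_
    have h3 : ∑ m ∈ J, ‖(∑ h ∈ range L, v h * φ ((h : ℤ) - m)) • a m‖ ≤
        ∑ m ∈ J, ‖∑ h ∈ range L, v h * φ ((h : ℤ) - m)‖ := by
      refine Finset.sum_le_sum fun m _ => ?_
      rw [norm_smul]
      calc _ ≤ ‖∑ h ∈ range L, v h * φ ((h : ℤ) - m)‖ * 1 :=
            mul_le_mul_of_nonneg_left (ha m) (norm_nonneg _)
        _ = _ := mul_one _
    refine h3.trans ?_
    have h4 : (∑ m ∈ J, ‖∑ h ∈ range L, v h * φ ((h : ℤ) - m)‖) ^ 2 ≤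
        (L + 2 * (L₀ + 1)) * ∑ m ∈ J, ‖∑ h ∈ range L, v h * φ ((h : ℤ) - m)‖ ^ 2 := by
      have := sq_sum_le_card_mul_sum_sq (s := J)
        (f := fun m => ‖∑ h ∈ range L, v h * φ ((h : ℤ) - m)‖)
      rwa [hJc] at this
    have h5 := cvec_sum_sq C φ J L v
    refine le_of_sq_le_sq ?_ (norm_nonneg _)
    rw [h5, hCsq]
    exact h4

/-- shifts keep the spectrum -/
theorem spec_shift {K : Set UnitAddCircle} {a : ℤ → ℂ} (h : SpecIn K a) (s : ℤ) :
    SpecIn K (fun n => a (n + s)) := by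
  intro f hf hU
  obtain ⟨U, hUo, hKU, h1⟩ := hU
  have h2 := h (fun n => f (n - s)) ((Equiv.subRight s).summable_iff.2 hf)
    ⟨U, hUo, hKU, fun η hη => ?_⟩
  · rw [← (Equiv.subRight s).tsum_eq (fun n => f n • a (n + s))]
    simpa using h2
  · have h3 : ∑' n : ℤ, f (n - s) * fourier n η = ∑' n : ℤ, f n * fourier (n + s) η := by
      rw [← (Equiv.subRight s).tsum_eq (fun n => f n * (fourier (n + s) η : ℂ))]
      simp
    rw [h3]
    have h4 : ∀ n : ℤ, f n * (fourier (n + s) η : ℂ) = (fourier s η : ℂ) * (f n * fourier n η) := by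
      intro n
      rw [fourier_add]
      ring
    rw [tsum_congr h4, tsum_mul_left, h1 η hη, mul_zero]

end Pool.Agent.Q40.PM
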