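import Mathlib
import Pool.Agent.Q40.PM.Band
import Pool.Agent.Q158.LinD

set_option autoImplicit false

/-! # Windows of a sequence against all band limited sequences -/

namespace Pool.Agent.Q40.PM

open Finset MeasureTheory Pool.Agent.TH327.Thin Pool.Agent.Q158.Lin

/-- the mean square estimate for vectors of a Hilbert space, with the diagonal -/
theorem sq_est {F : Type*} [NormedAddCommGroup F] [InnerProductSpace ℂ F] (u : ℕ → ℤ)
    (hu : ∀ n, |u n| ≤ 1) (N L : ℕ) (δ : ℝ) (hδ0 : 0 ≤ δ)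
    (hδ : ∀ h, 1 ≤ h → h < L → |∑ k ∈ range N, ((u k * u (k + h) : ℤ) : ℝ)| ≤ δ)
    (M : ℝ) (hM : ∀ i < L, ∑ n ∈ range N, ((u (n + 1 + i) * u (n + 1 + i) : ℤ) : ℝ) ≤ M)
    (hM0 : 0 ≤ M) (c : ℕ → F) :
    ∑ n ∈ range N, ‖∑ j ∈ range L, ((u (n + 1 + j) : ℤ) : ℂ) • c j‖ ^ 2 ≤
      (∑ j ∈ range L, ‖c j‖ ^ 2) * (M + L * (δ + 2 * L)) := by
  set S : ℕ → ℕ → ℝ := fun i j =>
    ∑ n ∈ range N, ((u (n + 1 + i) * u (n + 1 + j) : ℤ) : ℝ) with hS
  have hsq : ∀ n, ‖∑ j ∈ range L, ((u (n + 1 + j) : ℤ) : ℂ) • c j‖ ^ 2 =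
      ∑ i ∈ range L, ∑ j ∈ range L, ((u (n + 1 + i) * u (n + 1 + j) : ℤ) : ℝ) *
        (inner ℂ (c i) (c j) : ℂ).re := by
    intro n
    rw [← inner_self_eq_norm_sq (𝕜 := ℂ), sum_inner, map_sum]
    refine Finset.sum_congr rfl fun i _ => ?_
    rw [inner_sum, map_sum]
    refine Finset.sum_congr rfl fun j _ => ?_
    rw [inner_smul_left, inner_smul_right, map_intCast, ← mul_assoc]
    have : ((u (n + 1 + i) : ℤ) : ℂ) * ((u (n + 1 + j) : ℤ) : ℂ) =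
        (((u (n + 1 + i) * u (n + 1 + j) : ℤ) : ℝ) : ℂ) := by push_cast; ring
    rw [this]
    show (((((u (n + 1 + i) * u (n + 1 + j) : ℤ) : ℝ) : ℂ)) * inner ℂ (c i) (c j)).re = _
    rw [Complex.re_ofReal_mul]
  have htot : ∑ n ∈ range N, ‖∑ j ∈ range L, ((u (n + 1 + j) : ℤ) : ℂ) • c j‖ ^ 2 =
      ∑ i ∈ range L, ∑ j ∈ range L, S i j * (inner ℂ (c i) (c j) : ℂ).re := by
    rw [Finset.sum_congr rfl fun n _ => hsq n, Finset.sum_comm]
    refine Finset.sum_congr rfl fun i _ => ?_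
    rw [Finset.sum_comm]
    refine Finset.sum_congr rfl fun j _ => ?_
    rw [Finset.sum_mul]
  have hoff : ∀ i j : ℕ, i < L → j < L → i ≠ j → |S i j| ≤ δ + 2 * L := by
    have key : ∀ i j : ℕ, j < L → i < j → |S i j| ≤ δ + 2 * L := by
      intro i j hj h
      have h1 := corr_shift u hu N (1 + i) (j - i) δ (hδ _ (by omega) (by omega))
      have h2 : S i j = ∑ n ∈ range N,
          ((u (n + (1 + i)) * u (n + (1 + i) + (j - i)) : ℤ) : ℝ) := by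
        simp only [hS]
        refine Finset.sum_congr rfl fun n _ => ?_
        have e1 : n + (1 + i) = n + 1 + i := by omega
        have e2 : n + (1 + i) + (j - i) = n + 1 + j := by omega
        rw [e2, e1]
      rw [h2]
      refine h1.trans ?_
      have h3 : ((1 + i : ℕ) : ℝ) ≤ L := by
        exact_mod_cast (by omega : 1 + i ≤ L)
      push_cast at h3 ⊢
      linarith
    intro i j hi hj hij
    rcases lt_or_gt_of_ne hij with h | h
    · exact key i j hj h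
    · have h4 : S i j = S j i := by
        simp only [hS]
        exact Finset.sum_congr rfl fun n _ => by rw [mul_comm]
      rw [h4]
      exact key j i hi h
  have hdiag : ∀ i : ℕ, i < L → |S i i| ≤ M := by
    intro i hi
    rw [abs_of_nonneg]
    · exact hM i hi
    · refine Finset.sum_nonneg fun n _ => ?_
      exact_mod_cast mul_self_nonneg _
  have hre : ∀ i j, |(inner ℂ (c i) (c j) : ℂ).re| ≤ ‖c i‖ * ‖c j‖ := fun i j =>
    (Complex.abs_re_le_norm _).trans (norm_inner_le_norm _ _)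
  have hterm : ∀ i ∈ range L, ∀ j ∈ range L, S i j * (inner ℂ (c i) (c j) : ℂ).re ≤
      (if i = j then ‖c i‖ ^ 2 * M else 0) + ‖c i‖ * ‖c j‖ * (δ + 2 * L) := by
    intro i hi j hj
    have h0 : 0 ≤ ‖c i‖ * ‖c j‖ * (δ + 2 * L) := by positivity
    refine (le_abs_self _).trans ?_
    rw [abs_mul]
    by_cases hij : i = j
    · subst hij
      rw [if_pos rfl]
      have h1 : |S i i| * |(inner ℂ (c i) (c i) : ℂ).re| ≤ M * (‖c i‖ * ‖c i‖) :=
        mul_le_mul (hdiag i (mem_range.1 hi)) (hre i i) (abs_nonneg _) hM0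
      nlinarith
    · rw [if_neg hij, zero_add]
      have h1 : |S i j| * |(inner ℂ (c i) (c j) : ℂ).re| ≤ (δ + 2 * L) * (‖c i‖ * ‖c j‖) :=
        mul_le_mul (hoff i j (mem_range.1 hi) (mem_range.1 hj) hij) (hre i j) (abs_nonneg _)
          (by positivity)
      linarith
  have hcs : (∑ i ∈ range L, ‖c i‖) ^ 2 ≤ L * ∑ i ∈ range L, ‖c i‖ ^ 2 := by
    have h1 := sq_sum_le_card_mul_sum_sq (s := range L) (f := fun i => ‖c i‖)
    rwa [card_range] at h1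
  rw [htot]
  refine (Finset.sum_le_sum fun i hi => Finset.sum_le_sum fun j hj => hterm i hi j hj).trans ?_
  have h5 : ∀ i ∈ range L, ∑ j ∈ range L, ((if i = j then ‖c i‖ ^ 2 * M else 0) +
      ‖c i‖ * ‖c j‖ * (δ + 2 * L)) =
      ‖c i‖ ^ 2 * M + ‖c i‖ * ((∑ j ∈ range L, ‖c j‖) * (δ + 2 * L)) := by
    intro i hi
    rw [Finset.sum_add_distrib, Finset.sum_ite_eq, if_pos hi, Finset.sum_mul, Finset.mul_sum]
    congr 1
    exact Finset.sum_congr rfl fun j _ => by ring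
  rw [Finset.sum_congr rfl h5, Finset.sum_add_distrib, ← Finset.sum_mul, ← Finset.sum_mul]
  have h6 : (∑ i ∈ range L, ‖c i‖) * ((∑ j ∈ range L, ‖c j‖) * (δ + 2 * L)) ≤
      (L * ∑ i ∈ range L, ‖c i‖ ^ 2) * (δ + 2 * L) := by
    rw [← mul_assoc, ← sq]
    exact mul_le_mul_of_nonneg_right hcs (by positivity)
  calc _ ≤ (∑ i ∈ range L, ‖c i‖ ^ 2) * M + (L * ∑ i ∈ range L, ‖c i‖ ^ 2) * (δ + 2 * L) :=
        add_le_add le_rfl h6
    _ = _ := by ring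

/-- the sequences of absolute value at most one with spectrum in `K` -/
def Cls (K : Set UnitAddCircle) : Set (ℤ → ℂ) := {a | (∀ n, ‖a n‖ ≤ 1) ∧ SpecIn K a}

/-- the supremum over all these sequences -/
noncomputable def W (K : Set UnitAddCircle) (u : ℕ → ℤ) (n H : ℕ) : ℝ :=
  ⨆ a : Cls K, ‖∑ h ∈ Icc 1 H, (a : ℤ → ℂ) h * (u (n + h) : ℂ)‖

theorem one_le {u : ℕ → ℤ} (hu : ∀ n, |u n| ≤ 1) (n H : ℕ)
    (a : ℤ → ℂ) (ha : ∀ n, ‖a n‖ ≤ 1) : ‖∑ h ∈ Icc 1 H, a h * (u (n + h) : ℂ)‖ ≤ H := by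
  refine (norm_sum_le _ _).trans ?_
  calc _ ≤ ∑ _h ∈ Icc 1 H, (1 : ℝ) := by
        refine Finset.sum_le_sum fun h _ => ?_
        rw [norm_mul, Complex.norm_intCast]
        have h1 : ((|u (n + h)| : ℤ) : ℝ) ≤ 1 := by exact_mod_cast hu _
        push_cast at h1
        calc _ ≤ (1 : ℝ) * 1 := mul_le_mul (ha _) h1 (abs_nonneg _) zero_le_one
          _ = _ := mul_one _
    _ = _ := by simp

theorem W_nonneg (K : Set UnitAddCircle) (u : ℕ → ℤ) (n H : ℕ) : 0 ≤ W K u n H :=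
  Real.iSup_nonneg fun _ => norm_nonneg _

theorem W_le (K : Set UnitAddCircle) (u : ℕ → ℤ) (n H : ℕ) (C : ℝ) (hC : 0 ≤ C)
    (h : ∀ a ∈ Cls K, ‖∑ h ∈ Icc 1 H, a h * (u (n + h) : ℂ)‖ ≤ C) : W K u n H ≤ C :=
  Real.iSup_le (fun a => h a.1 a.2) hC

theorem le_W {K : Set UnitAddCircle} {u : ℕ → ℤ} (hu : ∀ n, |u n| ≤ 1) (n H : ℕ) (a : ℤ → ℂ)
    (ha : a ∈ Cls K) : ‖∑ h ∈ Icc 1 H, a h * (u (n + h) : ℂ)‖ ≤ W K u n H := by
  have hb : BddAbove (Set.range fun a : Cls K =>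
      ‖∑ h ∈ Icc 1 H, (a : ℤ → ℂ) h * (u (n + h) : ℂ)‖) := by
    refine ⟨H, ?_⟩
    rintro _ ⟨a, rfl⟩
    exact one_le hu n H a.1 a.2.1
  exact le_ciSup hb ⟨a, ha⟩

theorem W_bdd {K : Set UnitAddCircle} {u : ℕ → ℤ} (hu : ∀ n, |u n| ≤ 1) (n H : ℕ) :
    W K u n H ≤ H :=
  W_le K u n H H (Nat.cast_nonneg _) fun a ha => one_le hu n H a ha.1

theorem shift_mem {K : Set UnitAddCircle} {a : ℤ → ℂ} (ha : a ∈ Cls K) (s : ℤ) :
    (fun n => a (n + s)) ∈ Cls K := ⟨fun n => ha.1 _, spec_shift ha.2 s⟩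

theorem W_add {K : Set UnitAddCircle} {u : ℕ → ℤ} (hu : ∀ n, |u n| ≤ 1) (n H₁ H₂ : ℕ) :
    W K u n (H₁ + H₂) ≤ W K u n H₁ + W K u (n + H₁) H₂ := by
  refine W_le K u n _ _ (add_nonneg (W_nonneg _ _ _ _) (W_nonneg _ _ _ _)) fun a ha => ?_
  have h1 : ∑ h ∈ Icc 1 (H₁ + H₂), a h * (u (n + h) : ℂ) =
      ∑ h ∈ Icc 1 H₁, a h * (u (n + h) : ℂ) +
      ∑ h ∈ Icc 1 H₂, (fun m : ℤ => a (m + H₁)) h * (u (n + H₁ + h) : ℂ) := by
    rw [sum_Icc_range, sum_Icc_range, sum_Icc_range, Finset.sum_range_add]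
    congr 1
    refine Finset.sum_congr rfl fun h _ => ?_
    have e1 : n + (H₁ + h + 1) = n + H₁ + (h + 1) := by ring
    have e2 : ((H₁ + h + 1 : ℕ) : ℤ) = ((h + 1 : ℕ) : ℤ) + H₁ := by push_cast; ring
    simp only [e1, e2]
  rw [h1]
  exact (norm_add_le _ _).trans (add_le_add (le_W hu n H₁ a ha)
    (le_W hu (n + H₁) H₂ _ (shift_mem ha H₁)))

theorem W_mul {K : Set UnitAddCircle} {u : ℕ → ℤ} (hu : ∀ n, |u n| ≤ 1) (n L q : ℕ) :
    W K u n (q * L) ≤ ∑ b ∈ range q, W K u (n + b * L) L := by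
  induction q with
  | zero =>
    rw [Nat.zero_mul]
    refine (W_bdd hu n 0).trans ?_
    simp
  | succ q ih =>
    rw [Nat.succ_mul, Finset.sum_range_succ]
    exact (W_add hu n (q * L) L).trans (add_le_add ih le_rfl)

theorem diag_shift {u : ℕ → ℤ} (hu : ∀ n, |u n| ≤ 1) (N i : ℕ) :
    ∑ n ∈ range N, ((u (n + 1 + i) * u (n + 1 + i) : ℤ) : ℝ) ≤
      ∑ n ∈ range N, ((u n * u n : ℤ) : ℝ) + 2 * (i + 1) := by
  have h1 := shift_sum (fun n => ((u n * u n : ℤ) : ℝ)) 1 (fun n => by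
    rw [Real.norm_eq_abs]
    have h1 : |u n * u n| ≤ 1 := by
      rw [abs_mul]
      exact mul_le_one₀ (hu _) (abs_nonneg _) (hu _)
    exact_mod_cast h1) N (i + 1)
  rw [Real.norm_eq_abs] at h1
  have h2 := (abs_le.1 h1).2
  have h3 : ∑ n ∈ range N, ((u (n + 1 + i) * u (n + 1 + i) : ℤ) : ℝ) =
      ∑ n ∈ range N, ((u (n + (i + 1)) * u (n + (i + 1)) : ℤ) : ℝ) := by
    refine Finset.sum_congr rfl fun n _ => ?_
    have e1 : n + 1 + i = n + (i + 1) := by ring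
    rw [e1]
  rw [h3]
  push_cast at h2 ⊢
  linarith

/-- the mean square of `u` is at most `ρ` -/
def MS (u : ℕ → ℤ) (ρ : ℝ) : Prop := ∀ η : ℝ, 0 < η → ∃ N₀ : ℕ, ∀ N : ℕ, N₀ ≤ N →
  ∑ n ∈ range N, ((u n * u n : ℤ) : ℝ) ≤ (ρ + η) * N

/-- **windows of fixed length** -/
theorem fixed {u : ℕ → ℤ} (hu : ∀ n, |u n| ≤ 1) {E : Set ℕ} (hE : Sm u E) {ρ : ℝ} (hρ0 : 0 ≤ ρ)
    (hρ1 : ρ ≤ 1) (hρ : MS u ρ) (K : Set UnitAddCircle) (hK : IsClosed K) (ε : ℝ) (hε : 0 < ε) :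
    ∃ L : ℕ, 1 ≤ L ∧ ∃ N₀ : ℕ, ∀ N : ℕ, N₀ ≤ N → N ∉ E →
      ∑ n ∈ range N, W K u n L ≤ (Real.sqrt (ρ * (volume K).toReal) + ε) * (L * N) := by
  set m : ℝ := (volume K).toReal with hm
  have hm0 : 0 ≤ m := ENNReal.toReal_nonneg
  have hm1 : m ≤ 1 := vol_le_one K
  set η : ℝ := min 1 (min (ε / 2) (ε ^ 2 / 28)) with hη
  have hη0 : 0 < η := by positivity
  have hη1 : η ≤ 1 := min_le_left _ _
  have hη2 : η ≤ ε / 2 := (min_le_right _ _).trans (min_le_left _ _)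
  have hη3 : η ≤ ε ^ 2 / 28 := (min_le_right _ _).trans (min_le_right _ _)
  obtain ⟨L₁, hL₁⟩ := slow K hK η hη0
  set L : ℕ := max L₁ 1 with hL
  have hL1 : 1 ≤ L := le_max_right _ _
  have hL0 : (0 : ℝ) < L := by exact_mod_cast hL1
  obtain ⟨ι, iι, c, hc1, hc2⟩ := hL₁ L (le_max_left _ _)
  obtain ⟨N₁, hN₁⟩ := hE.all L (η / (2 * L)) (by positivity)
  obtain ⟨N₂, hN₂⟩ := hρ η hη0
  obtain ⟨N₃, hN₃⟩ := exists_nat_ge (4 * L ^ 2 / η)
  refine ⟨L, hL1, max N₁ (max N₂ N₃), fun N hN hNE => ?_⟩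
  have h1 := hN₁ N (le_trans (le_max_left _ _) hN) hNE
  have h2 := hN₂ N (le_trans (le_trans (le_max_left _ _) (le_max_right _ _)) hN)
  have h3 : 4 * (L : ℝ) ^ 2 ≤ η * N := by
    have h4 : 4 * (L : ℝ) ^ 2 / η ≤ N := hN₃.trans (by
      exact_mod_cast le_trans (le_trans (le_max_right _ _) (le_max_right _ _)) hN)
    rw [div_le_iff₀ hη0] at h4
    linarith
  have hN0 : (0 : ℝ) ≤ N := Nat.cast_nonneg N
  have hL1' : (1 : ℝ) ≤ L := by exact_mod_cast hL1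
  have hdiag : ∀ i < L, ∑ n ∈ range N, ((u (n + 1 + i) * u (n + 1 + i) : ℤ) : ℝ) ≤
      (ρ + 2 * η) * N := by
    intro i hi
    refine (diag_shift hu N i).trans ?_
    have h4 : (i : ℝ) + 1 ≤ L := by exact_mod_cast hi
    have h5 : (L : ℝ) ≤ L ^ 2 := by nlinarith
    nlinarith
  have h4 := sq_est u hu N L (η / (2 * L) * N) (by positivity) h1 ((ρ + 2 * η) * N) hdiag
    (by positivity) c
  have h5 : (ρ + 2 * η) * (N : ℝ) + L * (η / (2 * L) * N + 2 * L) ≤ (ρ + 3 * η) * N := by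
    have h6 : (L : ℝ) * (η / (2 * L) * N) = η * N / 2 := by
      field_simp
    nlinarith
  set P : ℕ → ℝ := fun n => ‖∑ j ∈ range L, ((u (n + 1 + j) : ℤ) : ℂ) • c j‖ with hP
  have h6 : ∑ n ∈ range N, P n ^ 2 ≤ ((m + η) * L ^ 2) * ((ρ + 3 * η) * N) :=
    h4.trans (mul_le_mul hc1 h5 (by positivity) (by positivity))
  have h7 : ∑ n ∈ range N, P n ≤ (Real.sqrt (ρ * m) + ε / 2) * (L * N) := by
    have h7 := sq_sum_le_card_mul_sum_sq (s := range N) (f := P)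
    rw [Finset.card_range] at h7
    refine le_of_sq_le_sq (h7.trans ?_) (by positivity)
    have h8 : (m + η) * (ρ + 3 * η) ≤ (Real.sqrt (ρ * m) + ε / 2) ^ 2 := by
      have h9 : Real.sqrt (ρ * m) ^ 2 = ρ * m := Real.sq_sqrt (by positivity)
      have h10 : 0 ≤ Real.sqrt (ρ * m) := Real.sqrt_nonneg _
      have h11 : (m + η) * (ρ + 3 * η) ≤ ρ * m + 7 * η := by nlinarith
      have h12 : 7 * η ≤ (ε / 2) ^ 2 := by linarith
      nlinarith
    calc (N : ℝ) * ∑ n ∈ range N, P n ^ 2 ≤ N * (((m + η) * L ^ 2) * ((ρ + 3 * η) * N)) :=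
          mul_le_mul_of_nonneg_left h6 hN0
      _ = ((m + η) * (ρ + 3 * η)) * (L * N) ^ 2 := by ring
      _ ≤ (Real.sqrt (ρ * m) + ε / 2) ^ 2 * (L * N) ^ 2 :=
          mul_le_mul_of_nonneg_right h8 (by positivity)
      _ = _ := by ring
  have h8 : ∀ n ∈ range N, W K u n L ≤ P n + η * L := by
    intro n _
    refine W_le K u n L _ (add_nonneg (norm_nonneg _) (by positivity)) fun a ha => ?_
    have h9 := hc2 (fun n => a (n + 1)) (shift_mem ha 1).1 (shift_mem ha 1).2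
      (fun j => ((u (n + 1 + j) : ℤ) : ℂ)) (fun j => by
        rw [Complex.norm_intCast]
        exact_mod_cast hu _)
    refine le_trans (le_of_eq ?_) h9
    rw [sum_Icc_range]
    congr 1
    refine Finset.sum_congr rfl fun j _ => ?_
    have e1 : n + (j + 1) = n + 1 + j := by ring
    rw [e1, smul_eq_mul, mul_comm]
    push_cast
    rfl
  refine (Finset.sum_le_sum h8).trans ?_
  rw [Finset.sum_add_distrib, Finset.sum_const, Finset.card_range, nsmul_eq_mul]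
  calc _ ≤ (Real.sqrt (ρ * m) + ε / 2) * (L * N) + N * (ε / 2 * L) :=
        add_le_add h7 (mul_le_mul_of_nonneg_left (mul_le_mul_of_nonneg_right hη2 hL0.le) hN0)
    _ = _ := by ring

/-- **long windows** -/
theorem long {u : ℕ → ℤ} (hu : ∀ n, |u n| ≤ 1) {E : Set ℕ} (hE : Sm u E) {ρ : ℝ} (hρ0 : 0 ≤ ρ)
    (hρ1 : ρ ≤ 1) (hρ : MS u ρ) (K : Set UnitAddCircle) (hK : IsClosed K) (ε : ℝ) (hε : 0 < ε) :
    ∃ H₀ : ℕ, ∀ H : ℕ, H₀ ≤ H → ∃ N₀ : ℕ, ∀ N : ℕ, N₀ ≤ N → N ∉ E →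
      ∑ n ∈ Icc 1 N, W K u n H ≤ (Real.sqrt (ρ * (volume K).toReal) + ε) * (H * N) := by
  obtain ⟨L, hL, N₁, h1⟩ := fixed hu hE hρ0 hρ1 hρ K hK (ε / 3) (by positivity)
  set κ : ℝ := Real.sqrt (ρ * (volume K).toReal) with hκ
  have hκ0 : 0 ≤ κ := Real.sqrt_nonneg _
  have hL0 : (0 : ℝ) < L := by exact_mod_cast hL
  obtain ⟨H₀, hH₀⟩ := exists_nat_ge (3 * L / ε)
  refine ⟨H₀, fun H hH => ?_⟩
  obtain ⟨N₂, hN₂⟩ := exists_nat_ge (6 * (H + 1) / ε)
  refine ⟨max N₁ N₂, fun N hN hNE => ?_⟩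
  have h2 := h1 N (le_trans (le_max_left _ _) hN) hNE
  have c1 : 3 * L ≤ ε * H := by
    have h6 : 3 * L / ε ≤ H := hH₀.trans (by exact_mod_cast hH)
    rw [div_le_iff₀ hε] at h6
    linarith
  have c2 : 6 * ((H : ℝ) + 1) ≤ ε * N := by
    have h6 : 6 * ((H : ℝ) + 1) / ε ≤ N :=
      hN₂.trans (by exact_mod_cast le_trans (le_max_right _ _) hN)
    rw [div_le_iff₀ hε] at h6
    linarith
  set q : ℕ := H / L with hq
  set r : ℕ := H % L with hr
  have hHqr : H = q * L + r := by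
    rw [hq, hr, mul_comm]
    exact (Nat.div_add_mod H L).symm
  have hrL : (r : ℝ) ≤ L := by exact_mod_cast (Nat.mod_lt H (by omega)).le
  have hqH : (q : ℝ) * L ≤ H := by
    exact_mod_cast (by rw [hHqr]; omega : q * L ≤ H)
  have hN0 : (0 : ℝ) ≤ N := Nat.cast_nonneg N
  have hH0 : (0 : ℝ) ≤ H := Nat.cast_nonneg H
  have h3 : ∀ n, W K u n H ≤ ∑ b ∈ range q, W K u (n + b * L) L + L := by
    intro n
    conv_lhs => rw [hHqr]
    exact (W_add hu n (q * L) r).trans (add_le_add (W_mul hu n L q) ((W_bdd hu _ _).trans hrL))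
  have h4 : ∀ b ∈ range q, ∑ n ∈ Icc 1 N, W K u (n + b * L) L ≤
      (κ + ε / 3) * (L * N) + 2 * (H + 1) * L := by
    intro b hb
    rw [sum_Icc_range]
    have h5 := shift_sum (fun n => W K u n L) L (fun n => by
      rw [Real.norm_eq_abs, abs_of_nonneg (W_nonneg _ _ _ _)]
      exact W_bdd hu n L) N (b * L + 1)
    rw [Real.norm_eq_abs] at h5
    have h6 := (abs_le.1 h5).2
    have h7 : ((b * L + 1 : ℕ) : ℝ) ≤ H + 1 := by
      have : b * L ≤ q * L := Nat.mul_le_mul_right L (mem_range.1 hb).le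
      exact_mod_cast (by omega : b * L + 1 ≤ H + 1)
    have h8 : ∑ n ∈ range N, W K u (n + 1 + b * L) L =
        ∑ n ∈ range N, W K u (n + (b * L + 1)) L :=
      Finset.sum_congr rfl fun n _ => by
        congr 1
        omega
    rw [h8]
    have h9 : 2 * ((b * L + 1 : ℕ) : ℝ) * L ≤ 2 * (H + 1) * L := by nlinarith
    linarith
  calc ∑ n ∈ Icc 1 N, W K u n H ≤ ∑ n ∈ Icc 1 N, (∑ b ∈ range q, W K u (n + b * L) L + L) :=
        Finset.sum_le_sum fun n _ => h3 n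
    _ = ∑ b ∈ range q, ∑ n ∈ Icc 1 N, W K u (n + b * L) L + N * L := by
        rw [Finset.sum_add_distrib, Finset.sum_comm]
        simp
    _ ≤ ∑ _b ∈ range q, ((κ + ε / 3) * (L * N) + 2 * (H + 1) * L) + N * L :=
        add_le_add (Finset.sum_le_sum h4) le_rfl
    _ = (q * L) * ((κ + ε / 3) * N + 2 * (H + 1)) + N * L := by
        rw [Finset.sum_const, Finset.card_range, nsmul_eq_mul]
        ring
    _ ≤ H * ((κ + ε / 3) * N + 2 * (H + 1)) + N * L := by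
        have : 0 ≤ (κ + ε / 3) * N + 2 * (H + 1) := by positivity
        have := mul_le_mul_of_nonneg_right hqH this
        linarith
    _ ≤ (κ + ε) * (H * N) := by nlinarith

end Pool.Agent.Q40.PM
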