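import Mathlib
import Pool.Agent.Q40.PM.Win
import Pool.Agent.Q158.TorA
import Pool.Agent.Y293.SF.SQF

set_option autoImplicit false

/-! # Logarithmic averages, mean squares, rotations of tori -/

namespace Pool.Agent.Q40.PM

open Finset MeasureTheory Pool.Agent.TH327.Thin Pool.Agent.Q158.Lin Pool.Agent.Q158.Tor

/-- from natural averages to logarithmic averages -/
theorem log_of_nat (A : ℕ → ℝ) (hA0 : ∀ n, 0 ≤ A n) (B : ℝ) (hAB : ∀ n, A n ≤ B) (E : Set ℕ)
    [DecidablePred (· ∈ E)]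
    (hE : ∀ ε : ℝ, 0 < ε → ∃ X₀ : ℕ, ∀ X : ℕ, X₀ ≤ X →
      ∑ n ∈ Icc 1 X, (if n ∈ E then (1 : ℝ) / n else 0) ≤ ε * Real.log X)
    (κ ε : ℝ) (hκ : 0 ≤ κ) (hε : 0 < ε) (N₀ : ℕ)
    (h : ∀ N : ℕ, N₀ ≤ N → N ∉ E → ∑ n ∈ Icc 1 N, A n ≤ κ * N) :
    ∃ N₁ : ℕ, ∀ N : ℕ, N₁ ≤ N → ∑ n ∈ Icc 1 N, (1 / (n : ℝ)) * A n ≤ (κ + ε) * Real.log N := by
  have hB0 : 0 ≤ B := (hA0 0).trans (hAB 0)
  set S : ℕ → ℝ := fun m => ∑ n ∈ Icc 1 m, A n with hS
  have hS0 : ∀ m, 0 ≤ S m := fun m => Finset.sum_nonneg fun n _ => hA0 n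
  have hSB : ∀ m, S m ≤ B * m := by
    intro m
    calc S m ≤ ∑ _n ∈ Icc 1 m, B := Finset.sum_le_sum fun n _ => hAB n
      _ = _ := by simp [mul_comm]
  have habel : ∀ N : ℕ, ∑ n ∈ Icc 1 N, (1 / (n : ℝ)) * A n = S N / (N + 1) +
      ∑ m ∈ Icc 1 N, S m / (m * (m + 1)) := by
    intro N
    induction N with
    | zero => simp [hS]
    | succ N ih =>
      rw [Finset.sum_Icc_succ_top (by omega), ih, Finset.sum_Icc_succ_top (by omega)]
      have h1 : S (N + 1) = S N + A (N + 1) := by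
        simp only [hS]
        rw [Finset.sum_Icc_succ_top (by omega)]
      have h2 : (0 : ℝ) < (N : ℝ) + 1 := by positivity
      have h3 : (0 : ℝ) < (N : ℝ) + 1 + 1 := by positivity
      rw [h1]
      push_cast
      field_simp
      ring
  have hpt : ∀ m : ℕ, 1 ≤ m → S m / (m * (m + 1)) ≤ κ * (1 / m) +
      B * (if m ∈ E then (1 : ℝ) / m else 0) + (if m < N₀ then B else 0) := by
    intro m hm
    have hm0 : (0 : ℝ) < m := by exact_mod_cast hm
    have hm1 : (1 : ℝ) ≤ m := by exact_mod_cast hm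
    have g1 : ∀ C : ℝ, 0 ≤ C → S m ≤ C * m → S m / (m * (m + 1)) ≤ C * (1 / m) := by
      intro C hC hSC
      rw [div_le_iff₀ (by positivity)]
      calc S m ≤ C * m := hSC
        _ ≤ C * (m + 1) := by nlinarith
        _ = C * (1 / m) * (m * (m + 1)) := by field_simp
    have p1 : 0 ≤ κ * (1 / (m : ℝ)) := by positivity
    have p2 : 0 ≤ B * (if m ∈ E then (1 : ℝ) / m else 0) := by
      split_ifs <;> positivity
    by_cases h1 : m < N₀
    · rw [if_pos h1]
      have h2 := g1 B hB0 (hSB m)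
      have h3 : B * (1 / (m : ℝ)) ≤ B := by
        have : 1 / (m : ℝ) ≤ 1 := by
          rw [div_le_one hm0]
          exact hm1
        nlinarith
      linarith
    · rw [if_neg h1]
      by_cases h2 : m ∈ E
      · rw [if_pos h2]
        have h3 := g1 B hB0 (hSB m)
        linarith
      · have h3 := g1 κ hκ (h m (by omega) h2)
        linarith
  obtain ⟨X₀, hX₀⟩ := hE (ε / (2 * (B + 1))) (by positivity)
  obtain ⟨N₂, hN₂⟩ := Filter.eventually_atTop.1 ((Real.tendsto_log_atTop.comp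
    tendsto_natCast_atTop_atTop).eventually_ge_atTop (2 / ε * (B + κ + B * N₀)))
  refine ⟨max X₀ (max N₂ 1), fun N hN => ?_⟩
  have hN1 : 1 ≤ N := le_trans (le_trans (le_max_right _ _) (le_max_right _ _)) hN
  have c1 := hX₀ N (le_trans (le_max_left _ _) hN)
  have c2 : 2 / ε * (B + κ + B * N₀) ≤ Real.log N :=
    hN₂ N (le_trans (le_trans (le_max_left _ _) (le_max_right _ _)) hN)
  have c3 : B + κ + B * N₀ ≤ ε / 2 * Real.log N := by
    calc B + κ + B * N₀ = ε / 2 * (2 / ε * (B + κ + B * N₀)) := by field_simp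
      _ ≤ _ := mul_le_mul_of_nonneg_left c2 (by positivity)
  have hlog : 0 ≤ Real.log N := Real.log_nonneg (by exact_mod_cast hN1)
  rw [habel N]
  have d1 : S N / (N + 1) ≤ B := by
    rw [div_le_iff₀ (by positivity)]
    have := hSB N
    nlinarith
  have d2 : ∑ m ∈ Icc 1 N, (1 / (m : ℝ)) ≤ 1 + Real.log N := by
    have h1 := harmonic_le_one_add_log N
    rw [harmonic_eq_sum_Icc] at h1
    push_cast at h1
    simpa [one_div] using h1
  have d3 : ∑ m ∈ Icc 1 N, (if m < N₀ then B else 0) ≤ B * N₀ := by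
    rw [← Finset.sum_filter, Finset.sum_const, nsmul_eq_mul, mul_comm]
    apply mul_le_mul_of_nonneg_left _ hB0
    have h1 : ((Icc 1 N).filter (fun m => m < N₀)).card ≤ (range N₀).card :=
      Finset.card_le_card fun m hm => Finset.mem_range.2 (Finset.mem_filter.1 hm).2
    rw [Finset.card_range] at h1
    exact_mod_cast h1
  have d4 : ∑ m ∈ Icc 1 N, S m / ((m : ℝ) * (m + 1)) ≤
      κ * (1 + Real.log N) + B * (ε / (2 * (B + 1)) * Real.log N) + B * N₀ := by
    refine (Finset.sum_le_sum fun m hm => hpt m (Finset.mem_Icc.1 hm).1).trans ?_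
    rw [Finset.sum_add_distrib, Finset.sum_add_distrib, ← Finset.mul_sum, ← Finset.mul_sum]
    refine add_le_add (add_le_add (mul_le_mul_of_nonneg_left d2 hκ)
      (mul_le_mul_of_nonneg_left c1 hB0)) d3
  have d5 : B * (ε / (2 * (B + 1)) * Real.log N) ≤ ε / 2 * Real.log N := by
    have h1 : B * (ε / (2 * (B + 1))) ≤ ε / 2 := by
      rw [← mul_div_assoc, div_le_div_iff₀ (by positivity) (by norm_num)]
      nlinarith
    calc _ = B * (ε / (2 * (B + 1))) * Real.log N := by ring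
      _ ≤ _ := mul_le_mul_of_nonneg_right h1 hlog
  linarith

theorem ms_one {u : ℕ → ℤ} (hu : ∀ n, |u n| ≤ 1) : MS u 1 := by
  intro η hη
  refine ⟨0, fun N _ => ?_⟩
  calc ∑ n ∈ range N, ((u n * u n : ℤ) : ℝ) ≤ ∑ _n ∈ range N, (1 : ℝ) := by
        refine Finset.sum_le_sum fun n _ => ?_
        have h1 : |u n * u n| ≤ 1 := by
          rw [abs_mul]
          exact mul_le_one₀ (hu _) (abs_nonneg _) (hu _)
        exact_mod_cast (abs_le.1 h1).2
    _ = N := by simp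
    _ ≤ _ := by nlinarith [(Nat.cast_nonneg N : (0 : ℝ) ≤ N)]

theorem ms_mob : MS (fun n => ArithmeticFunction.moebius n) (6 / Real.pi ^ 2) := by
  classical
  intro η hη
  have h1 := Pool.Agent.Y293.SF.t_SQF
  unfold Pool.Agent.Y859.SF.S_SQF at h1
  obtain ⟨N₁, h2⟩ := Filter.eventually_atTop.1 (h1.eventually_lt_const
    (show 6 / Real.pi ^ 2 < 6 / Real.pi ^ 2 + η by linarith))
  refine ⟨max N₁ 1, fun N hN => ?_⟩
  have h3 := h2 N (le_trans (le_max_left _ _) hN)
  have hN0 : (0 : ℝ) < N := by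
    exact_mod_cast (by omega : 0 < N)
  rw [div_lt_iff₀ hN0] at h3
  refine le_trans ?_ h3.le
  have h4 : ∀ n ∈ range N, (((fun n => ArithmeticFunction.moebius n) n *
      (fun n => ArithmeticFunction.moebius n) n : ℤ) : ℝ) =
      if Squarefree n then (1 : ℝ) else 0 := by
    intro n _
    by_cases hn : Squarefree n
    · rw [if_pos hn]
      have := ArithmeticFunction.moebius_sq_eq_one_of_squarefree hn
      simp only
      rw [← sq, this]
      simp
    · rw [if_neg hn]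
      simp only
      rw [ArithmeticFunction.moebius_eq_zero_of_not_squarefree hn]
      simp
  rw [Finset.sum_congr rfl h4, ← Finset.sum_filter, Finset.sum_const, nsmul_eq_mul, mul_one]
  have h5 : (range N).filter (fun n => Squarefree n) ⊆ (Icc 1 N).filter (fun n => Squarefree n) := by
    intro n hn
    rw [Finset.mem_filter, Finset.mem_range] at hn
    rw [Finset.mem_filter, Finset.mem_Icc]
    refine ⟨⟨?_, hn.1.le⟩, hn.2⟩
    rcases Nat.eq_zero_or_pos n with h | h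
    · subst h
      exact absurd hn.2 not_squarefree_zero
    · exact h
  have h6 := Finset.card_le_card h5
  exact_mod_cast h6

variable {d : ℕ}

/-- the values of a character on the rotations in `G` -/
def img (G : Set (Fin d → UnitAddCircle)) (k : Fin d → ℤ) : Set UnitAddCircle :=
  (fun g : Fin d → UnitAddCircle => ∑ i, k i • g i) '' G

theorem img_closed (G : Set (Fin d → UnitAddCircle)) (hG : IsClosed G) (k : Fin d → ℤ) :
    IsClosed (img G k) := by
  have hc : Continuous (fun g : Fin d → UnitAddCircle => ∑ i, k i • g i) := by fun_prop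
  exact (hG.isCompact.image hc).isClosed

theorem sup_le_sum (G : Set (Fin d → UnitAddCircle)) (f : C(Fin d → UnitAddCircle, ℂ))
    {u : ℕ → ℤ} (hu : ∀ n, |u n| ≤ 1) (F : Finset (Fin d → ℤ)) (c : (Fin d → ℤ) → ℂ) (τ : ℝ)
    (hτ : ∀ x, ‖f x - ∑ k ∈ F, c k * UnitAddTorus.mFourier k x‖ ≤ τ) (n H : ℕ) :
    windowSup G f u n H ≤ ∑ k ∈ F, ‖c k‖ * W (img G k) u n H + τ * H := by
  have hτ0 : 0 ≤ τ := (norm_nonneg _).trans (hτ 0)
  refine windowSup_le G f u n H _ (add_nonneg (Finset.sum_nonneg fun k _ =>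
    mul_nonneg (norm_nonneg _) (W_nonneg _ _ _ _)) (by positivity)) fun p => ?_
  set y : ℕ → Fin d → UnitAddCircle := fun h => p.2 + (h + n) • (p.1 : Fin d → UnitAddCircle)
    with hy
  have h1 : ∑ h ∈ Icc 1 H, f (y h) * (u (n + h) : ℂ) =
      ∑ k ∈ F, c k * ∑ h ∈ Icc 1 H, (UnitAddTorus.mFourier k (y h) : ℂ) * (u (n + h) : ℂ) +
      ∑ h ∈ Icc 1 H, (f (y h) - ∑ k ∈ F, c k * UnitAddTorus.mFourier k (y h)) *
        (u (n + h) : ℂ) := by
    simp only [Finset.mul_sum]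
    rw [Finset.sum_comm, ← Finset.sum_add_distrib]
    refine Finset.sum_congr rfl fun h _ => ?_
    rw [sub_mul, Finset.sum_mul]
    have h2 : ∑ k ∈ F, c k * ((UnitAddTorus.mFourier k (y h) : ℂ) * (u (n + h) : ℂ)) =
        ∑ k ∈ F, c k * UnitAddTorus.mFourier k (y h) * (u (n + h) : ℂ) :=
      Finset.sum_congr rfl fun k _ => by ring
    rw [h2]
    ring
  rw [h1]
  refine (norm_add_le _ _).trans (add_le_add ((norm_sum_le _ _).trans
    (Finset.sum_le_sum fun k _ => ?_)) ((norm_sum_le _ _).trans ?_))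
  · rw [norm_mul]
    refine mul_le_mul_of_nonneg_left ?_ (norm_nonneg _)
    set θ : UnitAddCircle := ∑ i, k i • (p.1 : Fin d → UnitAddCircle) i with hθ
    set a : ℤ → ℂ := fun m => (UnitAddTorus.mFourier k p.2 * fourier (n : ℤ) θ) * fourier m θ
      with ha
    have h3 : a ∈ Cls (img G k) := by
      refine ⟨fun m => ?_, ?_⟩
      · rw [ha]
        simp only [norm_mul, norm_fourier_apply, mul_one]
        exact (ContinuousMap.norm_coe_le_norm _ _).trans (le_of_eq UnitAddTorus.mFourier_norm)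
      · have hm : θ ∈ img G k := ⟨p.1, p.1.2, rfl⟩
        exact spec_exp (img G k) θ hm (UnitAddTorus.mFourier k p.2 * fourier (n : ℤ) θ)
    refine le_trans (le_of_eq ?_) (le_W hu n H a h3)
    congr 1
    refine Finset.sum_congr rfl fun h _ => ?_
    rw [hy, ha]
    simp only
    rw [mF_orbit]
    have h4 : (fourier (((h + n : ℕ) : ℤ)) θ : ℂ) = fourier (n : ℤ) θ * fourier (h : ℤ) θ := by
      rw [← fourier_add]
      push_cast
      rw [add_comm]
    rw [h4]
    ring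
  · calc _ ≤ ∑ _h ∈ Icc 1 H, τ := by
          refine Finset.sum_le_sum fun h _ => ?_
          rw [norm_mul, Complex.norm_intCast]
          have h1 : ((|u (n + h)| : ℤ) : ℝ) ≤ 1 := by exact_mod_cast hu _
          push_cast at h1
          calc _ ≤ τ * 1 := mul_le_mul (hτ _) h1 (abs_nonneg _) hτ0
            _ = _ := mul_one _
      _ = _ := by simp [mul_comm]

/-- **rotations of a torus** -/
theorem nat_est {u : ℕ → ℤ} (hu : ∀ n, |u n| ≤ 1) {E : Set ℕ} (hE : Sm u E) {ρ : ℝ}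
    (hρ0 : 0 ≤ ρ) (hρ1 : ρ ≤ 1) (hρ : MS u ρ)
    (G : Set (Fin d → UnitAddCircle)) (hG : IsClosed G) (f : C(Fin d → UnitAddCircle, ℂ))
    (F : Finset (Fin d → ℤ)) (c : (Fin d → ℤ) → ℂ) (τ : ℝ)
    (hτ : ∀ x, ‖f x - ∑ k ∈ F, c k * UnitAddTorus.mFourier k x‖ ≤ τ)
    (ε : ℝ) (hε : 0 < ε) : ∃ H₀ : ℕ, ∀ H : ℕ, H₀ ≤ H →
      ∃ N₀ : ℕ, ∀ N : ℕ, N₀ ≤ N → N ∉ E → ∑ n ∈ Icc 1 N, windowSup G f u n H ≤
        (∑ k ∈ F, ‖c k‖ * Real.sqrt (ρ * (volume (img G k)).toReal) + τ + ε) * (H * N) := by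
  classical
  set C : ℝ := ∑ k ∈ F, ‖c k‖ with hC
  have hC0 : 0 ≤ C := Finset.sum_nonneg fun k _ => norm_nonneg _
  have h1 : ∀ k : Fin d → ℤ, ∃ H₀ : ℕ, ∀ H : ℕ, H₀ ≤ H → ∃ N₀ : ℕ, ∀ N : ℕ, N₀ ≤ N → N ∉ E →
      ∑ n ∈ Icc 1 N, W (img G k) u n H ≤
        (Real.sqrt (ρ * (volume (img G k)).toReal) + ε / (C + 1)) * (H * N) := fun k =>
    long hu hE hρ0 hρ1 hρ (img G k) (img_closed G hG k) _ (by positivity)
  choose H₀ h2 using h1
  refine ⟨∑ k ∈ F, H₀ k, fun H hH => ?_⟩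
  have h3 : ∀ k : Fin d → ℤ, ∃ N₀ : ℕ, k ∈ F → ∀ N : ℕ, N₀ ≤ N → N ∉ E →
      ∑ n ∈ Icc 1 N, W (img G k) u n H ≤
        (Real.sqrt (ρ * (volume (img G k)).toReal) + ε / (C + 1)) * (H * N) := by
    intro k
    by_cases hk : k ∈ F
    · have h4 : H₀ k ≤ H :=
        (Finset.single_le_sum (f := H₀) (fun _ _ => Nat.zero_le _) hk).trans hH
      obtain ⟨N₀, h5⟩ := h2 k H h4
      exact ⟨N₀, fun _ => h5⟩
    · exact ⟨0, fun h => absurd h hk⟩
  choose N₀ h4 using h3
  refine ⟨∑ k ∈ F, N₀ k, fun N hN hNE => ?_⟩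
  have h5 : ∀ k ∈ F, ∑ n ∈ Icc 1 N, ‖c k‖ * W (img G k) u n H ≤
      ‖c k‖ * ((Real.sqrt (ρ * (volume (img G k)).toReal) + ε / (C + 1)) * (H * N)) := by
    intro k hk
    rw [← Finset.mul_sum]
    refine mul_le_mul_of_nonneg_left (h4 k hk N ?_ hNE) (norm_nonneg _)
    exact (Finset.single_le_sum (f := N₀) (fun _ _ => Nat.zero_le _) hk).trans hN
  calc ∑ n ∈ Icc 1 N, windowSup G f u n H ≤
        ∑ n ∈ Icc 1 N, (∑ k ∈ F, ‖c k‖ * W (img G k) u n H + τ * H) :=
        Finset.sum_le_sum fun n _ => sup_le_sum G f hu F c τ hτ n H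
    _ = ∑ k ∈ F, ∑ n ∈ Icc 1 N, ‖c k‖ * W (img G k) u n H + N * (τ * H) := by
        rw [Finset.sum_add_distrib, Finset.sum_comm]
        simp
    _ ≤ ∑ k ∈ F, ‖c k‖ * ((Real.sqrt (ρ * (volume (img G k)).toReal) + ε / (C + 1)) *
          (H * N)) + N * (τ * H) := add_le_add (Finset.sum_le_sum h5) le_rfl
    _ = (∑ k ∈ F, ‖c k‖ * Real.sqrt (ρ * (volume (img G k)).toReal)) * (H * N) +
          C * (ε / (C + 1)) * (H * N) + τ * (H * N) := by
        rw [hC, Finset.sum_mul, Finset.sum_mul, Finset.sum_mul, ← Finset.sum_add_distrib]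
        rw [add_comm _ (N * (τ * H)), add_comm _ (τ * (H * N))]
        congr 1
        · ring
        · exact Finset.sum_congr rfl fun k _ => by ring
    _ ≤ _ := by
        have h6 : C * (ε / (C + 1)) ≤ ε := by
          rw [← mul_div_assoc, div_le_iff₀ (by positivity)]
          nlinarith
        have h7 : (0 : ℝ) ≤ H * N := by positivity
        have h8 := mul_le_mul_of_nonneg_right h6 h7
        linarith

end Pool.Agent.Q40.PM
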